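import Mathlib
import Pool.Agent.W772.FA.Defs

set_option autoImplicit false

/-!
# FAE-ABS (MP_c40668_an): a square integrable characteristic function gives positive measure
-/

namespace Pool.Agent.W803.FA

open MeasureTheory Set Metric Filter Complex
open Pool.Agent.W772.FA
open scoped ENNReal Topology

theorem cont_qa {d : ℕ} (J : Finset (Fin d)) : Continuous (qa J) := by
  unfold qa; fun_prop

theorem cont_qb {d : ℕ} (J : Finset (Fin d)) : Continuous (qb J) := by
  unfold qb; fun_prop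

theorem qa_nonneg {d : ℕ} (J : Finset (Fin d)) (z : E d) : 0 ≤ qa J z := by
  unfold qa; positivity

theorem qb_nonneg {d : ℕ} (J : Finset (Fin d)) (z : E d) : 0 ≤ qb J z := by
  unfold qb; positivity

theorem s_ABS : S_ABS := by
  intro d J μ hμ A hA hA0 B₁ B₂ hB₁ hB₂ hp₁ hp₂ κ γ hγ hD
  classical
  -- the function
  let g : E d × E d → ℝ := fun p => qa J (p.1 - p.2) + κ * qb J (p.1 - p.2)
  have hgc : Continuous g := by
    have h1 := (cont_qa J).comp (continuous_fst.sub continuous_snd : Continuous fun p : E d × E d => p.1 - p.2)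
    have h2 := (cont_qb J).comp (continuous_fst.sub continuous_snd : Continuous fun p : E d × E d => p.1 - p.2)
    exact h1.add (continuous_const.mul h2)
  -- the density
  let h : E d × E d → ℝ := fun p => Real.exp (-(qa J (p.1 - p.2)) - qb J (p.1 - p.2)) *
    (B₁.indicator 1 p.1 * B₂.indicator 1 p.2)
  have hind1 : Measurable (fun p : E d × E d => (B₁.indicator (1 : E d → ℝ) p.1)) :=
    (measurable_one.indicator hB₁).comp measurable_fst
  have hind2 : Measurable (fun p : E d × E d => (B₂.indicator (1 : E d → ℝ) p.2)) :=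
    (measurable_one.indicator hB₂).comp measurable_snd
  have hec : Continuous (fun p : E d × E d => Real.exp (-(qa J (p.1 - p.2)) - qb J (p.1 - p.2))) := by
    have h1 := (cont_qa J).comp (continuous_fst.sub continuous_snd : Continuous fun p : E d × E d => p.1 - p.2)
    have h2 := (cont_qb J).comp (continuous_fst.sub continuous_snd : Continuous fun p : E d × E d => p.1 - p.2)
    exact Real.continuous_exp.comp (h1.neg.sub h2)
  have hhm : Measurable h := hec.measurable.mul (hind1.mul hind2)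
  have hh0 : ∀ p, 0 ≤ h p := fun p => mul_nonneg (Real.exp_pos _).le
    (mul_nonneg (indicator_nonneg (fun _ _ => zero_le_one) _) (indicator_nonneg (fun _ _ => zero_le_one) _))
  have hh1 : ∀ p, h p ≤ 1 := by
    intro p
    have e1 : Real.exp (-(qa J (p.1 - p.2)) - qb J (p.1 - p.2)) ≤ 1 := by
      rw [Real.exp_le_one_iff]
      have := qa_nonneg J (p.1 - p.2)
      have := qb_nonneg J (p.1 - p.2)
      linarith
    have i1 : B₁.indicator (1 : E d → ℝ) p.1 ≤ 1 := indicator_le_self' (f := (1 : E d → ℝ)) (fun _ _ => zero_le_one) _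
    have i2 : B₂.indicator (1 : E d → ℝ) p.2 ≤ 1 := indicator_le_self' (f := (1 : E d → ℝ)) (fun _ _ => zero_le_one) _
    have j1 : 0 ≤ B₁.indicator (1 : E d → ℝ) p.1 := indicator_nonneg (fun _ _ => zero_le_one) _
    have j2 : 0 ≤ B₂.indicator (1 : E d → ℝ) p.2 := indicator_nonneg (fun _ _ => zero_le_one) _
    calc h p ≤ 1 * (1 * 1) := by
          apply mul_le_mul e1 (mul_le_mul i1 i2 j2 zero_le_one) (mul_nonneg j1 j2) zero_le_one
      _ = 1 := by norm_num
  -- the mass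
  let M : ℝ≥0∞ := ∫⁻ p, ENNReal.ofReal (h p) ∂(μ.prod μ)
  have hM1 : M ≤ 1 := by
    calc M ≤ ∫⁻ _, 1 ∂(μ.prod μ) := lintegral_mono fun p => by
          rw [← ENNReal.ofReal_one]; exact ENNReal.ofReal_le_ofReal (hh1 p)
      _ = 1 := by simp
  have hMtop : M ≠ ⊤ := ne_top_of_le_ne_top ENNReal.one_ne_top hM1
  have hM0 : M ≠ 0 := by
    intro h0
    rw [lintegral_eq_zero_iff (hhm.ennreal_ofReal)] at h0
    have : (μ.prod μ) (B₁ ×ˢ B₂) = 0 := by
      refine measure_mono_null ?_ (ae_iff.1 h0)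
      intro p hp hp'
      have : h p ≤ 0 := by simpa using hp'
      have h2 : 0 < h p := by
        have e1 : B₁.indicator (1 : E d → ℝ) p.1 = 1 := by
          rw [indicator_of_mem hp.1]; rfl
        have e2 : B₂.indicator (1 : E d → ℝ) p.2 = 1 := by
          rw [indicator_of_mem hp.2]; rfl
        show 0 < Real.exp (-(qa J (p.1 - p.2)) - qb J (p.1 - p.2)) *
          (B₁.indicator 1 p.1 * B₂.indicator 1 p.2)
        rw [e1, e2]
        have := Real.exp_pos (-(qa J (p.1 - p.2)) - qb J (p.1 - p.2))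
        linarith
      linarith
    rw [Measure.prod_prod] at this
    rcases mul_eq_zero.1 this with h | h
    · exact hp₁.ne' h
    · exact hp₂.ne' h
  let P : Measure (E d × E d) := M⁻¹ • (μ.prod μ).withDensity (fun p => ENNReal.ofReal (h p))
  have hP : IsProbabilityMeasure P := by
    constructor
    show (M⁻¹ • (μ.prod μ).withDensity (fun p => ENNReal.ofReal (h p))) univ = 1
    rw [Measure.smul_apply, withDensity_apply _ MeasurableSet.univ, Measure.restrict_univ, smul_eq_mul]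
    exact ENNReal.inv_mul_cancel hM0 hMtop
  have hPac : P ≪ μ.prod μ :=
    (Measure.smul_absolutelyContinuous).trans (withDensity_absolutelyContinuous _ _)
  let m : ℝ := (M⁻¹).toReal
  have hm0 : 0 ≤ m := ENNReal.toReal_nonneg
  let φ : ℝ → ℂ := fun t => ∫ ω, Complex.exp (((t * g ω : ℝ) : ℂ) * Complex.I) ∂P
  have hφ : ∀ t, φ t = (m : ℂ) * NN J μ (B₁.indicator 1) (B₂.indicator 1) t (κ * t) := by
    intro t
    show ∫ ω, Complex.exp (((t * g ω : ℝ) : ℂ) * Complex.I)
      ∂(M⁻¹ • (μ.prod μ).withDensity (fun p => ENNReal.ofReal (h p))) = _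
    rw [integral_smul_measure]
    rw [integral_withDensity_eq_integral_toReal_smul hhm.ennreal_ofReal
      (Eventually.of_forall fun _ => ENNReal.ofReal_lt_top)]
    rw [Complex.real_smul]
    congr 1
    unfold NN
    refine integral_congr_ae (Eventually.of_forall fun p => ?_)
    simp only
    rw [ENNReal.toReal_ofReal (hh0 p), Complex.real_smul]
    show ((Real.exp (-(qa J (p.1 - p.2)) - qb J (p.1 - p.2)) *
      (B₁.indicator 1 p.1 * B₂.indicator 1 p.2) : ℝ) : ℂ) *
      Complex.exp (((t * (qa J (p.1 - p.2) + κ * qb J (p.1 - p.2)) : ℝ) : ℂ) * Complex.I) = _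
    rw [Complex.ofReal_mul, Complex.ofReal_exp]
    rw [mul_right_comm, ← Complex.exp_add]
    unfold Pool.Agent.W772.FA.ker
    congr 2
    push_cast
    ring
  have hφn : ∀ t, ‖φ t‖ ^ 2 = m ^ 2 * ‖NN J μ (B₁.indicator 1) (B₂.indicator 1) t (κ * t)‖ ^ 2 := by
    intro t
    rw [hφ, norm_mul, Complex.norm_real, Real.norm_eq_abs, abs_of_nonneg hm0, mul_pow]
  have hφ1 : ∀ t, ‖φ t‖ ≤ 1 := by
    intro t
    calc ‖φ t‖ ≤ ∫ ω, ‖Complex.exp (((t * g ω : ℝ) : ℂ) * Complex.I)‖ ∂P := norm_integral_le_integral_norm _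
      _ = ∫ ω, (1 : ℝ) ∂P := by
          refine integral_congr_ae (Eventually.of_forall fun ω => ?_)
          exact Complex.norm_exp_ofReal_mul_I _
      _ = 1 := by simp
  have hφneg : ∀ t, ‖φ (-t)‖ = ‖φ t‖ := by
    intro t
    have : φ (-t) = (starRingEnd ℂ) (φ t) := by
      show ∫ ω, Complex.exp (((-t * g ω : ℝ) : ℂ) * Complex.I) ∂P =
        (starRingEnd ℂ) (∫ ω, Complex.exp (((t * g ω : ℝ) : ℂ) * Complex.I) ∂P)
      rw [← integral_conj]
      refine integral_congr_ae (Eventually.of_forall fun ω => ?_)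
      simp only
      rw [← Complex.exp_conj, map_mul, Complex.conj_I, Complex.conj_ofReal]
      congr 1
      push_cast
      ring
    rw [this, Complex.norm_conj]
  -- finiteness
  have hpos : ∫⁻ t in Ioi (0 : ℝ), ENNReal.ofReal (‖φ t‖ ^ 2) ≠ ⊤ := by
    have hcov : Ioi (0 : ℝ) ⊆ Ioc 0 1 ∪ ⋃ j : ℕ, Icc ((2 ^ j : ℕ) : ℝ) (2 * ((2 ^ j : ℕ) : ℝ)) := by
      intro t ht
      by_cases h1 : t ≤ 1
      · exact Or.inl ⟨ht, h1⟩
      · right
        push Not at h1
        obtain ⟨n, hn1, hn2⟩ := exists_nat_pow_near h1.le (by norm_num : (1 : ℝ) < 2)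
        refine mem_iUnion.2 ⟨n, ?_, ?_⟩
        · push_cast; exact hn1
        · push_cast; rw [pow_succ] at hn2; linarith
    have hb : ∀ s : Set ℝ, ∫⁻ t in s, ENNReal.ofReal (‖φ t‖ ^ 2) ≤ volume s := by
      intro s
      calc ∫⁻ t in s, ENNReal.ofReal (‖φ t‖ ^ 2) ≤ ∫⁻ _ in s, 1 := by
            refine lintegral_mono fun t => ?_
            rw [← ENNReal.ofReal_one]
            exact ENNReal.ofReal_le_ofReal (pow_le_one₀ (norm_nonneg _) (hφ1 t))
        _ = volume s := by simp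
    let a : ℕ → ℝ≥0∞ := fun j => ∫⁻ t in Icc ((2 ^ j : ℕ) : ℝ) (2 * ((2 ^ j : ℕ) : ℝ)),
      ENNReal.ofReal (‖φ t‖ ^ 2)
    have ha : ∀ j, a j = ENNReal.ofReal (m ^ 2) * Dj J μ (B₁.indicator 1) (B₂.indicator 1) j κ := by
      intro j
      show ∫⁻ t in Icc ((2 ^ j : ℕ) : ℝ) (2 * ((2 ^ j : ℕ) : ℝ)), ENNReal.ofReal (‖φ t‖ ^ 2) = _
      unfold Dj
      rw [← lintegral_const_mul' _ _ ENNReal.ofReal_ne_top]
      refine lintegral_congr fun t => ?_
      rw [hφn, ENNReal.ofReal_mul (by positivity)]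
    have hafin : ∀ j, a j ≠ ⊤ := by
      intro j
      refine ne_top_of_le_ne_top ?_ (hb _)
      rw [Real.volume_Icc]
      exact ENNReal.ofReal_ne_top
    obtain ⟨j₀, hj₀⟩ := eventually_atTop.1 hD
    have hsum : ∑' j, a j ≠ ⊤ := by
      rw [← (ENNReal.summable : Summable (fun n => a (n + j₀))).sum_add_tsum_nat_add']
      refine ENNReal.add_ne_top.2 ⟨?_, ?_⟩
      · exact ENNReal.sum_ne_top.2 fun j _ => hafin j
      · have hq : Summable (fun n : ℕ => m ^ 2 * ((2 : ℝ) ^ (-γ)) ^ n) := by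
          refine Summable.mul_left _ (summable_geometric_of_lt_one (by positivity) ?_)
          exact Real.rpow_lt_one_of_one_lt_of_neg (by norm_num) (by linarith)
        have hq2 : Summable (fun n : ℕ => m ^ 2 * ((2 : ℝ) ^ (-γ)) ^ (n + j₀)) :=
          (summable_nat_add_iff j₀).2 hq
        refine ne_top_of_le_ne_top hq2.tsum_ofReal_ne_top (ENNReal.tsum_le_tsum fun n => ?_)
        rw [ha, ENNReal.ofReal_mul (by positivity)]
        gcongr
        refine (hj₀ (n + j₀) (by omega)).trans (ENNReal.ofReal_le_ofReal (le_of_eq ?_))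
        push_cast
        rw [← Real.rpow_natCast, ← Real.rpow_natCast, ← Real.rpow_mul (by norm_num),
          ← Real.rpow_mul (by norm_num), mul_comm]
    refine ne_top_of_le_ne_top ?_ (lintegral_mono_set hcov)
    refine ne_top_of_le_ne_top ?_ (lintegral_union_le _ _ _)
    refine ENNReal.add_ne_top.2 ⟨?_, ?_⟩
    · refine ne_top_of_le_ne_top ?_ (hb _)
      rw [Real.volume_Ioc]
      exact ENNReal.ofReal_ne_top
    · exact ne_top_of_le_ne_top hsum (lintegral_iUnion_le _ _)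
  have hall : ∫⁻ t : ℝ, ENNReal.ofReal (‖φ t‖ ^ 2) ≠ ⊤ := by
    have hcov : (univ : Set ℝ) ⊆ Iio 0 ∪ (Icc 0 0 ∪ Ioi 0) := by
      intro t _
      rcases lt_trichotomy t 0 with h | h | h
      · exact Or.inl h
      · exact Or.inr (Or.inl ⟨h.ge, h.le⟩)
      · exact Or.inr (Or.inr h)
    rw [← setLIntegral_univ]
    refine ne_top_of_le_ne_top ?_ (lintegral_mono_set hcov)
    refine ne_top_of_le_ne_top ?_ (lintegral_union_le _ _ _)
    refine ENNReal.add_ne_top.2 ⟨?_, ?_⟩
    · have : ∫⁻ t in Iio (0 : ℝ), ENNReal.ofReal (‖φ t‖ ^ 2) =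
          ∫⁻ t in Ioi (0 : ℝ), ENNReal.ofReal (‖φ t‖ ^ 2) := by
        have h1 := (Measure.measurePreserving_neg (volume : Measure ℝ)).setLIntegral_comp_preimage_emb
          (MeasurableEquiv.neg ℝ).measurableEmbedding (fun t => ENNReal.ofReal (‖φ t‖ ^ 2)) (Iio 0)
        rw [← h1]
        have h2 : (Neg.neg : ℝ → ℝ) ⁻¹' Iio 0 = Ioi 0 := by
          ext t; simp
        rw [h2]
        refine lintegral_congr fun t => ?_
        rw [hφneg]
      rw [this]
      exact hpos
    · refine ne_top_of_le_ne_top ?_ (lintegral_union_le _ _ _)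
      refine ENNReal.add_ne_top.2 ⟨?_, hpos⟩
      have : ∫⁻ t in Icc (0 : ℝ) 0, ENNReal.ofReal (‖φ t‖ ^ 2) = 0 := by
        rw [Icc_self]
        exact setLIntegral_measure_zero _ _ (by simp)
      rw [this]
      exact ENNReal.zero_ne_top
  -- the compact set
  have hDK : IsCompact (DK J A κ) := by
    have : DK J A κ = g '' (A ×ˢ A) := by
      ext r
      constructor
      · rintro ⟨z, hz, z', hz', rfl⟩
        exact ⟨(z, z'), ⟨hz, hz'⟩, rfl⟩
      · rintro ⟨⟨z, z'⟩, ⟨hz, hz'⟩, rfl⟩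
        exact ⟨z, hz, z', hz', rfl⟩
    rw [this]
    exact (hA.prod hA).image hgc
  have haeA : ∀ᵐ p ∂(μ.prod μ), g p ∈ DK J A κ := by
    have hae : ∀ᵐ z ∂μ, z ∈ A := by
      rw [ae_iff]; exact hA0
    have h1 : ∀ᵐ p ∂(μ.prod μ), p.1 ∈ A := Measure.quasiMeasurePreserving_fst.ae hae
    have h2 : ∀ᵐ p ∂(μ.prod μ), p.2 ∈ A := Measure.quasiMeasurePreserving_snd.ae hae
    filter_upwards [h1, h2] with p hp1 hp2
    exact ⟨p.1, hp1, p.2, hp2, rfl⟩
  refine Pool.Agent.H744R2.Falc.volume_pos_of_collision P (Measure.dirac ()) (fun ω _ => g ω)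
    (hgc.measurable.comp measurable_fst) (DK J A κ) hDK
    (Eventually.of_forall fun _ => hPac.ae_le haeA)
    (Real.exp (1 / 4) / Real.sqrt Real.pi * (∫⁻ t : ℝ, ENNReal.ofReal (‖φ t‖ ^ 2)).toReal) ?_
  intro δ hδ _
  rw [lintegral_dirac]
  refine (Pool.Agent.H744R2.Falc.collision_gauss P g hgc.measurable δ hδ).trans ?_
  have hle : ∫⁻ t : ℝ, ENNReal.ofReal (‖∫ ω, Complex.exp (((t * g ω : ℝ) : ℂ) * Complex.I) ∂P‖ ^ 2 *
      Real.exp (-(δ ^ 2 * t ^ 2))) ≤ ∫⁻ t : ℝ, ENNReal.ofReal (‖φ t‖ ^ 2) := by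
    refine lintegral_mono fun t => ENNReal.ofReal_le_ofReal ?_
    have : Real.exp (-(δ ^ 2 * t ^ 2)) ≤ 1 := by
      rw [Real.exp_le_one_iff]
      have : 0 ≤ δ ^ 2 * t ^ 2 := by positivity
      linarith
    exact mul_le_of_le_one_right (by positivity) this
  calc ENNReal.ofReal (Real.exp (1 / 4) * (δ / Real.sqrt Real.pi)) *
        ∫⁻ t : ℝ, ENNReal.ofReal (‖∫ ω, Complex.exp (((t * g ω : ℝ) : ℂ) * Complex.I) ∂P‖ ^ 2 *
          Real.exp (-(δ ^ 2 * t ^ 2)))
      ≤ ENNReal.ofReal (Real.exp (1 / 4) * (δ / Real.sqrt Real.pi)) *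
        ∫⁻ t : ℝ, ENNReal.ofReal (‖φ t‖ ^ 2) := by gcongr
    _ = ENNReal.ofReal (Real.exp (1 / 4) * (δ / Real.sqrt Real.pi)) *
        ENNReal.ofReal (∫⁻ t : ℝ, ENNReal.ofReal (‖φ t‖ ^ 2)).toReal := by
          rw [ENNReal.ofReal_toReal hall]
    _ = ENNReal.ofReal (Real.exp (1 / 4) / Real.sqrt Real.pi *
        (∫⁻ t : ℝ, ENNReal.ofReal (‖φ t‖ ^ 2)).toReal * δ) := by
          rw [← ENNReal.ofReal_mul (by positivity)]
          congr 1
          ring

end Pool.Agent.W803.FA
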